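import Mathlib
import Pool.Agent.Lib.MP_65fbb9_lc.Decode

/-!
MP_65fbb9_lc, Q1, answered in the negated form: `D(~_0) = D(≠*, 2^(2^n))`.
-/

namespace Pool.Agent.Results.MP_65fbb9_lc.Q1Equality

open Pool.Agent.MP_65fbb9_lc

theorem result : DSim 0 = DNeq (fun n => 2 ^ (2 ^ n)) :=
  Set.Subset.antisymm DSim_zero_subset_DNeq_pow
    (DNeq_pow_subset_factorial.trans DNeq_factorial_subset_DSim_zero)

end Pool.Agent.Results.MP_65fbb9_lc.Q1Equality
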