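import Mathlib
import Pool.Agent.Lib.MP_65fbb9_lc.ServeComp

/-!
MP_65fbb9_lc, Q2, answered in the negated form:
`D(≠*, 2^(n!)) = D(≠*, 2^(2^n))`.
-/

namespace Pool.Agent.Results.MP_65fbb9_lc.Q2Equality

open Pool.Agent.MP_65fbb9_lc

theorem result : DNeq (fun n => 2 ^ n.factorial) = DNeq (fun n => 2 ^ (2 ^ n)) :=
  Set.Subset.antisymm DNeq_factorial_subset_pow DNeq_pow_subset_factorial

end Pool.Agent.Results.MP_65fbb9_lc.Q2Equality
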